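import Mathlib
import Pool.Agent.U367.DR.Stm

/-!
# Package EPS of Project DR: the element `ε` of the tilt
-/

set_option autoImplicit false

namespace Pool.Agent.U580.DR

open Pool.Agent.W292.FM Pool.Agent.U367.DR WittVector Ideal

section
variable (p : ℕ) [hp : Fact p.Prime]

/-- A coherent sequence of `p`-power roots of unity in `PadicAlgCl p`. -/
theorem exists_zseq : ∃ a : ℕ → PadicAlgCl p, a 0 = 1 ∧ IsPrimitiveRoot (a 1) p ∧
    ∀ n, a (n + 1) ^ p = a n := by
  have hroot : ∀ y : PadicAlgCl p, ∃ w : PadicAlgCl p, w ^ p = y := fun y =>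
    IsAlgClosed.exists_pow_nat_eq y hp.out.pos
  choose f hf using hroot
  obtain ⟨ζ, hζ⟩ : ∃ ζ : PadicAlgCl p, IsPrimitiveRoot ζ p := by
    have : NeZero ((p : ℕ) : PadicAlgCl p) := ⟨by exact_mod_cast hp.out.ne_zero⟩
    have : NeZero p := ⟨hp.out.ne_zero⟩
    exact HasEnoughRootsOfUnity.exists_primitiveRoot (PadicAlgCl p) p
  let b : ℕ → PadicAlgCl p := fun n => Nat.rec ζ (fun _ y => f y) n
  refine ⟨fun n => if n = 0 then 1 else b (n - 1), by simp, ?_, ?_⟩
  · simpa [b] using hζ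
  · intro n
    rcases n with _ | n
    · simpa [b] using hζ.pow_eq_one
    · simpa [b] using hf _

theorem zseq_pow {a : ℕ → PadicAlgCl p} (h0 : a 0 = 1) (h : ∀ n, a (n + 1) ^ p = a n) (n : ℕ) :
    a n ^ p ^ n = 1 := by
  induction n with
  | zero => simpa using h0
  | succ n ih => rw [pow_succ', pow_mul, h, ih]

theorem coe_pow_cp (x : PadicAlgCl p) (n : ℕ) :
    ((x ^ n : PadicAlgCl p) : ℂ_[p]) = ((x : PadicAlgCl p) : ℂ_[p]) ^ n :=
  map_pow (UniformSpace.Completion.coeRingHom (α := PadicAlgCl p)) x n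

theorem norm_zseq {a : ℕ → PadicAlgCl p} (h0 : a 0 = 1) (h : ∀ n, a (n + 1) ^ p = a n) (n : ℕ) :
    ‖a n‖ = 1 :=
  norm_rootOfUnity (pow_ne_zero _ hp.out.ne_zero) (zseq_pow p h0 h n)

end

theorem t_EPS : S_EPS := by
  intro p hp hp2
  obtain ⟨a, h0, h1, h⟩ := exists_zseq p
  have hn : ∀ n, ‖a n‖ = 1 := norm_zseq p h0 h
  let A : ℕ → 𝓞_ℂ_[p] := fun n => ⟨((a n : PadicAlgCl p) : ℂ_[p]), by
    rw [mem_int_iff, PadicComplex.norm_extends, hn n]⟩
  have hAc : ∀ n, ((A n : 𝓞_ℂ_[p]) : ℂ_[p]) = ((a n : PadicAlgCl p) : ℂ_[p]) := fun n => rfl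
  have hA : ∀ n, A (n + 1) ^ p = A n := by
    intro n
    apply Subtype.ext
    rw [SubmonoidClass.coe_pow, hAc, hAc, ← h n, coe_pow_cp]
  have hA0 : A 0 = 1 := by
    apply Subtype.ext
    rw [hAc, h0]
    rfl
  refine ⟨mkT A hA, ?_, ?_, ?_⟩
  · rw [map_sub, map_one, fontaineTheta_teichmuller, untilt_mkT, hA0, sub_self]
  · intro g n hg
    refine Perfection.ext fun k => ?_
    change PreTilt.coeff k (tiltMap p (intMap p g) (mkT A hA)) = PreTilt.coeff k (mkT A hA ^ n)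
    rw [coeff_tiltMap, coeff_mkT, modPMap_mk, map_pow, coeff_mkT, ← map_pow]
    congr 1
    apply Subtype.ext
    rw [coe_intMap, SubmonoidClass.coe_pow, hAc, cpMap_coe, hg (a k) k (zseq_pow p h0 h k),
      coe_pow_cp]
  · intro z hz
    -- the zeroth Witt coefficient
    have hz0 := congrArg (constantCoeff : AI p →+* TT p) hz
    have hp0 : (constantCoeff : AI p →+* TT p) (p : AI p) = 0 := by
      rw [map_natCast]; exact CharP.cast_eq_zero (TT p) p
    have ht : ∀ x : TT p, (constantCoeff : AI p →+* TT p) (teichmuller p x) = x :=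
      fun x => teichmuller_coeff_zero p x
    rw [map_sub, map_one, map_mul, map_pow, map_sub, hp0, ht, ht, zero_sub, neg_sq] at hz0
    -- the coefficient with index one, modulo `p`
    have hz1 := congrArg (PreTilt.coeff 1) hz0
    obtain ⟨w, hw⟩ := Ideal.Quotient.mk_surjective (PreTilt.coeff 1 ((constantCoeff : AI p →+* TT p) z))
    rw [map_sub, map_one, map_mul, map_pow, coeff_mkT, pflat, coeff_mkT, ← hw, ← map_one (Ideal.Quotient.mk _),
      ← map_sub, ← map_pow, ← map_mul, ← sub_eq_zero, ← map_sub, mk_eq_zero_iff] at hz1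
    set ζ : PadicAlgCl p := a 1 with hζ
    set t : ℝ := ‖(pseq p 1 : ℂ_[p])‖ with ht'
    have ht0 : 0 < t := norm_pseq_pos 1
    have htp : t ^ p = (p : ℝ)⁻¹ := by
      have := norm_pseq_pow (p := p) 1
      rwa [pow_one, norm_p] at this
    have hx : ‖ζ - 1‖ ^ (p - 1) = (p : ℝ)⁻¹ := by
      have := norm_sub_one_pow_totient (p := p) (z := ζ) (n := 0) (by simpa using h1)
      rwa [zero_add, pow_one, Nat.totient_prime hp.out] at this
    have hp1 : (1 : ℝ) < p := one_lt_p p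
    have hpr : (0 : ℝ) < (p : ℝ)⁻¹ := by positivity
    have hp3 : 3 ≤ p := by
      have := hp.out.two_le
      omega
    have hbound : ‖ζ - 1‖ ≤ max (t ^ 2) (p : ℝ)⁻¹ := by
      have e1 : ((ζ : PadicAlgCl p) : ℂ_[p]) - 1 =
          (((A 1 - 1 - pseq p 1 ^ 2 * w : 𝓞_ℂ_[p]) : ℂ_[p])) +
            (pseq p 1 : ℂ_[p]) ^ 2 * (w : ℂ_[p]) := by
        push_cast
        rw [hAc]
        ring
      have e2 : ‖((ζ : PadicAlgCl p) : ℂ_[p]) - 1‖ = ‖ζ - 1‖ := by
        rw [← PadicComplex.norm_extends p (ζ - 1)]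
        congr 1
        push_cast
        rfl
      rw [← e2, e1]
      refine (IsUltrametricDist.norm_add_le_max _ _).trans ?_
      rw [max_comm]
      refine max_le_max ?_ ?_
      · rw [norm_mul, norm_pow]
        calc t ^ 2 * ‖(w : ℂ_[p])‖ ≤ t ^ 2 * 1 :=
              mul_le_mul_of_nonneg_left (norm_int_le p w) (by positivity)
          _ = t ^ 2 := mul_one _
      · rw [← norm_p]
        exact hz1
    rcases le_max_iff.1 hbound with hb | hb
    · -- compare the powers with exponent `p (p - 1)`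
      have e1 : ‖ζ - 1‖ ^ ((p - 1) * p) ≤ (t ^ 2) ^ ((p - 1) * p) :=
        pow_le_pow_left₀ (norm_nonneg _) hb _
      rw [pow_mul, hx, mul_comm (p - 1) p, ← pow_mul, ← mul_assoc, mul_comm 2 p, mul_assoc, pow_mul,
        htp] at e1
      have e2 : ((p : ℝ)⁻¹) ^ (2 * (p - 1)) < ((p : ℝ)⁻¹) ^ p :=
        pow_lt_pow_right_of_lt_one₀ hpr (inv_lt_one_of_one_lt₀ hp1) (by omega)
      exact absurd e1 (not_le.2 e2)
    · have e1 : ‖ζ - 1‖ ^ (p - 1) ≤ ((p : ℝ)⁻¹) ^ (p - 1) := pow_le_pow_left₀ (norm_nonneg _) hb _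
      rw [hx] at e1
      have e2 : ((p : ℝ)⁻¹) ^ (p - 1) < ((p : ℝ)⁻¹) ^ 1 :=
        pow_lt_pow_right_of_lt_one₀ hpr (inv_lt_one_of_one_lt₀ hp1) (by omega)
      rw [pow_one] at e2
      exact absurd e1 (not_le.2 e2)

end Pool.Agent.U580.DR
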