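import Mathlib
import Pool.Agent.U580.DR.EPS
import Pool.Agent.U367.DR.Def
import Pool.Agent.U491.DR.KER

/-!
# Package EPS2 of Project DR: the element `ε` of the tilt, for all primes `p`
-/

set_option autoImplicit false

namespace Pool.Agent.U580.DR

open Pool.Agent.W292.FM Pool.Agent.U367.DR WittVector Ideal

theorem t_EPS2 : S_EPS2 := by
  intro p hp
  obtain ⟨a, h0, h1, h⟩ := exists_zseq p
  have hn : ∀ n, ‖a n‖ = 1 := norm_zseq p h0 h
  let A : ℕ → 𝓞_ℂ_[p] := fun n => ⟨((a n : PadicAlgCl p) : ℂ_[p]), by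
    rw [mem_int_iff, PadicComplex.norm_extends, hn n]⟩
  have hAc : ∀ n, ((A n : 𝓞_ℂ_[p]) : ℂ_[p]) = ((a n : PadicAlgCl p) : ℂ_[p]) := fun n => rfl
  have hA : ∀ n, A (n + 1) ^ p = A n := by
    intro n
    apply Subtype.ext
    rw [SubmonoidClass.coe_pow, hAc, hAc, ← h n, coe_pow_cp]
  have hA0 : A 0 = 1 := by
    apply Subtype.ext
    rw [hAc, h0]
    rfl
  refine ⟨mkT A hA, ?_, ?_, ?_⟩
  · rw [map_sub, map_one, fontaineTheta_teichmuller, untilt_mkT, hA0, sub_self]
  · intro g n hg
    refine Perfection.ext fun k => ?_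
    change PreTilt.coeff k (tiltMap p (intMap p g) (mkT A hA)) = PreTilt.coeff k (mkT A hA ^ n)
    rw [coeff_tiltMap, coeff_mkT, modPMap_mk, map_pow, coeff_mkT, ← map_pow]
    congr 1
    apply Subtype.ext
    rw [coe_intMap, SubmonoidClass.coe_pow, hAc, cpMap_coe, hg (a k) k (zseq_pow p h0 h k),
      coe_pow_cp]
  · intro z hz
    set e : TT p := mkT A hA with he
    set e' : TT p := mkT (fun n => A (n + 1)) (fun n => hA (n + 1)) with he'
    set ξ : AI p := (p : AI p) - teichmuller p (pflat p) with hξ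
    have hee : e' ^ p = e := by
      refine Perfection.ext fun k => ?_
      change PreTilt.coeff k (e' ^ p) = PreTilt.coeff k e
      rw [map_pow, he', he, coeff_mkT, coeff_mkT, ← map_pow, hA]
    -- `A 1 ≠ 1`
    have ha1 : a 1 ≠ 1 := h1.ne_one hp.out.one_lt
    have hA1 : A 1 - 1 ≠ 0 := by
      rw [sub_ne_zero]
      intro hc
      apply ha1
      have hc2 := congrArg (fun x : 𝓞_ℂ_[p] => (x : ℂ_[p])) hc
      have hc3 : ((a 1 : PadicAlgCl p) : ℂ_[p]) = ((1 : PadicAlgCl p) : ℂ_[p]) := by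
        simpa [hAc] using hc2
      exact UniformSpace.Completion.coe_injective _ hc3
    have hθe' : fontaineTheta 𝓞_ℂ_[p] p (teichmuller p e' - 1) = A 1 - 1 := by
      rw [map_sub, map_one, fontaineTheta_teichmuller, he', untilt_mkT]
    have hθξ : fontaineTheta 𝓞_ℂ_[p] p ξ = 0 := by
      rw [hξ, map_sub, map_natCast, fontaineTheta_teichmuller, untilt_pflat, sub_self]
    -- zeroth coefficients
    have hp0 : (constantCoeff : AI p →+* TT p) (p : AI p) = 0 := by
      rw [map_natCast]; exact CharP.cast_eq_zero (TT p) p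
    have ht : ∀ x : TT p, (constantCoeff : AI p →+* TT p) (teichmuller p x) = x :=
      fun x => teichmuller_coeff_zero p x
    have hcξ : (constantCoeff : AI p →+* TT p) ξ = - pflat p := by
      rw [hξ, map_sub, hp0, ht, zero_sub]
    have htp' : ‖(pseq p 1 : ℂ_[p])‖ ^ p = (p : ℝ)⁻¹ := by
      have := norm_pseq_pow (p := p) 1
      rwa [pow_one, norm_p] at this
    have hp1' : (1 : ℝ) < p := one_lt_p p
    have ht1' : ‖(pseq p 1 : ℂ_[p])‖ < 1 := by
      by_contra hc
      push Not at hc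
      have := one_le_pow₀ (n := p) hc
      rw [htp'] at this
      exact absurd (inv_lt_one_of_one_lt₀ hp1') (not_lt.2 this)
    have hpf : pflat p ≠ 0 := by
      intro hc
      have h2 : PreTilt.coeff 1 (pflat p) = 0 := by rw [hc, map_zero]
      rw [pflat, coeff_mkT, mk_eq_zero_iff, norm_p, ← htp'] at h2
      have : ‖(pseq p 1 : ℂ_[p])‖ ^ p < ‖(pseq p 1 : ℂ_[p])‖ ^ 1 :=
        pow_lt_pow_right_of_lt_one₀ (norm_pseq_pos 1) ht1' hp.out.one_lt
      rw [pow_one] at this
      exact absurd h2 (not_le.2 this)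
    have hξ0 : ξ ≠ 0 := by
      intro hc
      rw [hc, map_zero] at hcξ
      exact hpf (neg_eq_zero.1 hcξ.symm)
    -- the factorisation
    set W : AI p := ∑ i ∈ Finset.range p, teichmuller p e' ^ i with hW
    have hfac : (teichmuller p e' - 1) * W = ξ ^ 2 * z := by
      rw [← hz, hW, mul_geom_sum, ← map_pow, hee]
    have hθW : fontaineTheta 𝓞_ℂ_[p] p W = 0 := by
      have h2 := congrArg (fontaineTheta 𝓞_ℂ_[p] p) hfac
      rw [map_mul, map_mul, map_pow, hθξ, hθe', zero_pow two_ne_zero, zero_mul] at h2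
      exact (mul_eq_zero.1 h2).resolve_left hA1
    obtain ⟨y1, hy1⟩ := Pool.Agent.U491.DR.t_KER p W hθW
    have hfac2 : (teichmuller p e' - 1) * y1 = ξ * z := by
      apply mul_left_cancel₀ hξ0
      calc ξ * ((teichmuller p e' - 1) * y1) = (teichmuller p e' - 1) * (ξ * y1) := by ring
        _ = (teichmuller p e' - 1) * W := by rw [hy1]
        _ = ξ ^ 2 * z := hfac
        _ = ξ * (ξ * z) := by ring
    have hθy : fontaineTheta 𝓞_ℂ_[p] p y1 = 0 := by
      have h2 := congrArg (fontaineTheta 𝓞_ℂ_[p] p) hfac2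
      rw [map_mul, map_mul, hθξ, hθe', zero_mul] at h2
      exact (mul_eq_zero.1 h2).resolve_left hA1
    obtain ⟨y2, hy2⟩ := Pool.Agent.U491.DR.t_KER p y1 hθy
    have hWξ : W = ξ ^ 2 * y2 := by
      rw [hy1, hy2]; ring
    -- in the tilt
    have he'1 : e' - 1 ≠ 0 := by
      intro hc
      rw [sub_eq_zero] at hc
      rw [hc, map_one, sub_self, map_zero] at hθe'
      exact hA1 hθe'.symm
    have hcW : (constantCoeff : AI p →+* TT p) W = (e' - 1) ^ (p - 1) := by
      rw [hW, map_sum]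
      simp only [map_pow, ht]
      apply mul_left_cancel₀ he'1
      rw [mul_geom_sum, ← pow_succ', Nat.sub_add_cancel hp.out.one_le, sub_pow_char, one_pow]
    have hz0 : (e' - 1) ^ (p - 1) = pflat p ^ 2 * (constantCoeff : AI p →+* TT p) y2 := by
      rw [← hcW, hWξ, map_mul, map_pow, hcξ, neg_sq]
    -- the coefficient with index one, modulo `p`
    have hz1 := congrArg (PreTilt.coeff 1) hz0
    obtain ⟨w, hw⟩ := Ideal.Quotient.mk_surjective
      (PreTilt.coeff 1 ((constantCoeff : AI p →+* TT p) y2))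
    rw [map_pow, map_sub, map_one, map_mul, map_pow, he', coeff_mkT, pflat, coeff_mkT, ← hw,
      ← map_one (Ideal.Quotient.mk _), ← map_sub, ← map_pow, ← map_pow, ← map_mul, ← sub_eq_zero,
      ← map_sub, mk_eq_zero_iff] at hz1
    set ζ : PadicAlgCl p := a 2 with hζ
    set t : ℝ := ‖(pseq p 1 : ℂ_[p])‖ with ht'
    have ht0 : 0 < t := norm_pseq_pos 1
    have htp : t ^ p = (p : ℝ)⁻¹ := by
      have := norm_pseq_pow (p := p) 1
      rwa [pow_one, norm_p] at this
    have hp1 : (1 : ℝ) < p := one_lt_p p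
    have hpr : (0 : ℝ) < (p : ℝ)⁻¹ := by positivity
    have hζp : IsPrimitiveRoot ζ (p ^ 2) := by
      have hord : orderOf ζ = p ^ (1 + 1) := by
        refine orderOf_eq_prime_pow ?_ ?_
        · rw [pow_one, hζ, h 1]
          exact ha1
        · have := zseq_pow p h0 h 2
          simpa using this
      have := IsPrimitiveRoot.orderOf ζ
      rwa [hord] at this
    have hx : (‖ζ - 1‖ ^ (p - 1)) ^ p = (p : ℝ)⁻¹ := by
      have := norm_sub_one_pow_totient (p := p) (z := ζ) (n := 1) hζp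
      rw [Nat.totient_prime_pow hp.out (by norm_num)] at this
      rw [← pow_mul, ← this]
      congr 1
      simp [mul_comm]
    have hxt : ‖ζ - 1‖ ^ (p - 1) = t := by
      rw [← htp] at hx
      exact (pow_left_inj₀ (pow_nonneg (norm_nonneg _) _) ht0.le hp.out.ne_zero).1 hx
    have ht1 : t < 1 := by
      by_contra hc
      push Not at hc
      have := one_le_pow₀ (n := p) hc
      rw [htp] at this
      exact absurd (inv_lt_one_of_one_lt₀ hp1) (not_lt.2 this)
    have hbound : ‖ζ - 1‖ ^ (p - 1) ≤ max (t ^ 2) (p : ℝ)⁻¹ := by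
      have e1 : (((ζ : PadicAlgCl p) : ℂ_[p]) - 1) ^ (p - 1) =
          ((((A 2 - 1) ^ (p - 1) - pseq p 1 ^ 2 * w : 𝓞_ℂ_[p]) : ℂ_[p])) +
            (pseq p 1 : ℂ_[p]) ^ 2 * (w : ℂ_[p]) := by
        push_cast
        rw [hAc]
        ring
      have e2 : ‖((ζ : PadicAlgCl p) : ℂ_[p]) - 1‖ = ‖ζ - 1‖ := by
        rw [← PadicComplex.norm_extends p (ζ - 1)]
        congr 1
        push_cast
        rfl
      rw [← e2, ← norm_pow, e1]
      refine (IsUltrametricDist.norm_add_le_max _ _).trans ?_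
      rw [max_comm]
      refine max_le_max ?_ ?_
      · rw [norm_mul, norm_pow]
        calc t ^ 2 * ‖(w : ℂ_[p])‖ ≤ t ^ 2 * 1 :=
              mul_le_mul_of_nonneg_left (norm_int_le p w) (by positivity)
          _ = t ^ 2 := mul_one _
      · rw [← norm_p]
        exact hz1
    rw [hxt] at hbound
    rcases le_max_iff.1 hbound with hb | hb
    · nlinarith
    · rw [← htp] at hb
      have : t ^ p < t ^ 1 := pow_lt_pow_right_of_lt_one₀ ht0 ht1 hp.out.one_lt
      rw [pow_one] at this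
      exact absurd hb (not_le.2 this)

end Pool.Agent.U580.DR
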